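import Pool.Agent.TB.Cor
import Pool.Agent.TB.Stmt

/-!
# Weak-strong uniqueness for Leray solutions bounded in the heat (Besov) sense near `t = 0`

`u` and `v` are weak Leray solutions of the Navier-Stokes equations on `[0, T) × ℝ³` with the same
initial value `u₀ ∈ L²`. If `|u(t)| ≤ ε / √t` and `√σ |e^{σ Δ} v(t)| ≤ N` for all `0 < σ ≤ t`, where
`ε (N + 1) ≤ 10⁻⁶`, then `u = v`. (`Pool.Agent.TB.besov_local` is the local form: `u = v` near the
initial time if `√t ‖u(t)‖_∞ → 0` and `√σ |e^{σ Δ} v(t)|`, `σ ≤ t`, is bounded near the initial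
time.)
-/

set_option autoImplicit false

namespace Pool.Agent.Results.MP_d762fe_an.BesovTypeOne

open MeasureTheory Set Pool.Agent.TO Pool.Agent.TB

theorem result (T : ℝ) (u₀ : V3) (u v : ℝ → V3) (hu : Leray T u₀ u) (hv : Leray T u₀ v)
    (ε N : ℝ) (hε : 0 ≤ ε) (hN : 0 ≤ N) (hεN : ε * (N + 1) ≤ 1e-6)
    (hub : LBdd T u (fun t => ε / √t)) (hvb : LHeat T v N) :
    ∀ t ∈ Ico 0 T, u t = v t :=
  besov hu.isLeray hv.isLeray hε hN hεN hub hvb

end Pool.Agent.Results.MP_d762fe_an.BesovTypeOne
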