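import Pool.Agent.TP.Cor

/-!
# Weak-strong uniqueness beyond the Serrin endpoint `L²_t L^∞_x`

`u` and `v` are weak Leray solutions of the Navier-Stokes equations on `[0, T) × ℝ³` with the same
initial value `u₀ ∈ L²`, `|u(t)| ≤ ε(t) / √t` and `|∇ u(t)| ≤ ε(t) / t` with a nondecreasing function
`ε`. If the integral of `ε^p dt / t` over `(0, T)` is finite for some `p < 8/3`, then `u = v`.
(The Serrin endpoint is `p = 2`.)
-/

set_option autoImplicit false

namespace Pool.Agent.Results.MP_d762fe_an.BeyondSerrin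

open MeasureTheory Set Pool.Agent.TO Pool.Agent.TP

theorem result (T : ℝ) (u₀ : V3) (u v : ℝ → V3) (hu : Leray T u₀ u) (hv : Leray T u₀ v)
    (ε : ℝ → ℝ) (hε : MonotoneOn ε (Ioo 0 T)) (h0 : ∀ t ∈ Ioo 0 T, 0 ≤ ε t)
    (hub : LBdd T u (fun t => ε t / √t)) (hgb : GBdd T u (fun t => ε t / t))
    (p : ℝ) (hp0 : 0 < p) (hp : p < 8 / 3)
    (hint : IntegrableOn (fun t => ε t ^ p / t) (Ioo 0 T) volume) :
    ∀ t ∈ Ico 0 T, u t = v t :=
  uniq hp0 hp hu.isLeray hv.isLeray hε h0 hub hgb hint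

end Pool.Agent.Results.MP_d762fe_an.BeyondSerrin
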