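import Pool.Agent.TC.Cor
import Pool.Agent.TC.Stmt

/-!
# Weak-strong uniqueness for Leray solutions with a Carleson bound near `t = 0`

`u` and `v` are weak Leray solutions of the Navier-Stokes equations on `[0, T) × ℝ³` with the same
initial value `u₀ ∈ L²`, `|u(t)| ≤ ε / √t` and `v = v₁ + v₂`, where `|v₁(t)| ≤ β / √t` and, for each
`t`, `∫₀ᵗ ∫_{B(z, ρ)} |v₂|² ≤ K² ρ³` for all balls of some radius `ρ ≤ √t / (2 ε)`. If
`ε (1 + β + K) ≤ c`, an absolute constant, then `u = v`. (For `ρ = √t` this is the Carleson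
condition of Koch and Tataru. `Pool.Agent.TC.carleson_local` is the local form: `u = v` near the
initial time if `√t ‖u(t)‖_∞ → 0`, for any `β` and `K`.)
-/

set_option autoImplicit false

namespace Pool.Agent.Results.MP_d762fe_an.CarlesonTypeOne

open MeasureTheory Set Pool.Agent.TO Pool.Agent.TC

theorem result : ∃ c : ℝ, 0 < c ∧ ∀ (T : ℝ) (u₀ : V3) (u v v₁ v₂ : ℝ → V3)
    (_ : Leray T u₀ u) (_ : Leray T u₀ v) (ε β K : ℝ) (_ : 0 < ε) (_ : 0 ≤ β) (_ : 0 ≤ K)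
    (_ : ε * (1 + β + K) ≤ c) (_ : LBdd T u (fun t => ε / √t))
    (_ : ∀ᵐ t ∂(volume.restrict (Ioo 0 T)), v t = v₁ t + v₂ t)
    (_ : LBdd T v₁ (fun t => β / √t))
    (_ : AEStronglyMeasurable v₂ (volume.restrict (Ioo 0 T)))
    (_ : ∀ t ∈ Ioo 0 T, ∃ ρ ∈ Ioc 0 (√t / (2 * ε)), CarlBdd t ρ K v₂),
    ∀ t ∈ Ico 0 T, u t = v t :=
  ⟨cst, cst_pos, fun _ _ _ _ _ _ hu hv _ _ _ hε hβ hK hc hua hsum hv1 hm hC =>
    carleson hu.isLeray hv.isLeray hε hβ hK hc hua hsum hv1 hm hC⟩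

end Pool.Agent.Results.MP_d762fe_an.CarlesonTypeOne
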