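import Pool.Agent.TF.Fin
import Pool.Agent.TF.M.All

/-!
# Weak-strong uniqueness for the Navier-Stokes equations with data in `L² ∩ bmo⁻¹₀`

The positive answer to Q1. For some absolute `ε₀ > 0`, for divergence-free
`u₀ ∈ L² ∩ bmo⁻¹₀` and `ε > 0` there are `T > 0` and a solution `u` of
`u = e^{t Δ} u₀ - B(u, u)` on `(0, T)`, with norm at most `ε` in `X_T` (the mild solution), such
that every weak Leray solution with initial value `u₀` coincides with `u` on `(0, T)`, and so does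
every solution `w` of `w = e^{t Δ} u₀ - B(w, w)` on `(0, T)` with norm at most `ε₀` in `X_T`.
-/

set_option autoImplicit false

namespace Pool.Agent.Results.MP_d762fe_an.WeakStrongUniqueness

open MeasureTheory Set Filter Topology Pool.Agent.TO Pool.Agent.TB Pool.Agent.TF
open scoped Real ENNReal

theorem result : ∃ ε₀ : ℝ≥0∞, 0 < ε₀ ∧ ∀ u₀ : V3, DivZero u₀ → BmoZ u₀ →
    ∀ ε : ℝ≥0∞, 0 < ε → ∃ T : ℝ, 0 < T ∧ ∃ u : ℝ → E3 → E3,
      Measurable (Function.uncurry u) ∧ XNorm T u ≤ ε ∧ Mild T u₀ u ∧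
      (∀ v : ℝ → V3, Leray T u₀ v → ∀ t ∈ Ioo 0 T, flds v t =ᵐ[volume] u t) ∧
      ∀ w : ℝ → E3 → E3, Measurable (Function.uncurry w) → XNorm T w ≤ ε₀ → Mild T u₀ w →
        ∀ t ∈ Ioo 0 T, w t =ᵐ[volume] u t :=
  KT.statement_of_main main_ok

end Pool.Agent.Results.MP_d762fe_an.WeakStrongUniqueness
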